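import Pool.Agent.K3h30.RS.Stm5

/-!
# Ratios of Euler factors at `0`, and divisibility of products of elements `1 - σ⁻¹`

Brick RATIO for `Pool.Agent.K3h30.RS.Stm5`.
-/

set_option autoImplicit false

open NumberField IsDedekindDomain Filter Topology

noncomputable section

namespace Pool.Agent.K3h66.RS

open Pool.Agent.K3h30.RS

theorem deriv_pow (a : ℕ) (ha : 2 ≤ a) (c : ℂ) :
    HasDerivAt (fun s : ℂ => 1 - c * (a : ℂ) ^ (-s)) (c * Complex.log a) 0 := by
  have ha0 : (a : ℂ) ≠ 0 := by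
    have : a ≠ 0 := by omega
    exact_mod_cast this
  have h1 : HasDerivAt (fun s : ℂ => -s) (-1) (0 : ℂ) := (hasDerivAt_id (0 : ℂ)).neg
  have h2 := h1.const_cpow (c := (a : ℂ)) (Or.inl ha0)
  have h3 := (h2.const_mul c).const_sub 1
  have e : -(c * ((a : ℂ) ^ (-(0 : ℂ)) * Complex.log a * -1)) = c * Complex.log a := by
    rw [neg_zero, Complex.cpow_zero]
    ring
  rwa [e] at h3

theorem log_ne (b : ℕ) (hb : 2 ≤ b) : Complex.log (b : ℂ) ≠ 0 := by
  rw [← Complex.natCast_log, Ne, Complex.ofReal_eq_zero]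
  exact (Real.log_pos (by exact_mod_cast (by omega : 1 < b))).ne'

theorem t_RATIO : S_RATIO := by
  intro a b χ χ' ha hb h
  by_cases hχ : χ = 1
  · have hχ' := h hχ
    subst hχ hχ'
    refine ⟨Complex.log a / Complex.log b, ?_⟩
    have ea := (hasDerivAt_iff_tendsto_slope.1 (deriv_pow a ha 1))
    have eb := (hasDerivAt_iff_tendsto_slope.1 (deriv_pow b hb 1))
    rw [one_mul] at ea eb
    refine (ea.div eb (log_ne b hb)).congr' ?_
    filter_upwards [self_mem_nhdsWithin] with s hs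
    have hs0 : s ≠ 0 := hs
    simp only [Pi.div_apply, slope_def_field, neg_zero, Complex.cpow_zero, mul_one, sub_self,
      sub_zero]
    rw [div_div_div_cancel_right₀ hs0]
  · refine ⟨(1 - χ' * (a : ℂ) ^ (-(0 : ℂ))) / (1 - χ * (b : ℂ) ^ (-(0 : ℂ))), ?_⟩
    have ea := (deriv_pow a ha χ').continuousAt.tendsto
    have eb := (deriv_pow b hb χ).continuousAt.tendsto
    refine (ea.div eb ?_).mono_left nhdsWithin_le_nhds
    rw [neg_zero, Complex.cpow_zero, mul_one, sub_ne_zero]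
    exact fun h1 => hχ h1.symm

theorem t_DIVZ : S_DIVZ := by
  classical
  intro G I _ _ V V' σ e hinj hmem hpow
  have h1 : (∏ v ∈ V, (1 - MonoidAlgebra.single (σ v)⁻¹ (1 : ℤ))) ∣
      ∏ v ∈ V, (1 - MonoidAlgebra.single (σ (e v))⁻¹ (1 : ℤ)) := by
    refine Finset.prod_dvd_prod_of_dvd _ _ fun v hv => ?_
    obtain ⟨k, hk⟩ := (Submonoid.mem_powers_iff _ _).1 (mem_powers_iff_mem_zpowers.2 (hpow v hv))
    have h2 : MonoidAlgebra.single (σ (e v))⁻¹ (1 : ℤ) =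
        (MonoidAlgebra.single (σ v)⁻¹ (1 : ℤ)) ^ k := by
      rw [MonoidAlgebra.single_pow, one_pow, inv_pow, hk]
    rw [h2]
    have h3 := sub_dvd_pow_sub_pow (1 : MonoidAlgebra ℤ G) (MonoidAlgebra.single (σ v)⁻¹ (1 : ℤ)) k
    rwa [one_pow] at h3
  have h4 : ∏ v ∈ V, (1 - MonoidAlgebra.single (σ (e v))⁻¹ (1 : ℤ)) =
      ∏ w ∈ V.image e, (1 - MonoidAlgebra.single (σ w)⁻¹ (1 : ℤ)) :=
    (Finset.prod_image (f := fun w => (1 - MonoidAlgebra.single (σ w)⁻¹ (1 : ℤ)))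
      (fun x hx y hy hxy => hinj hx hy hxy)).symm
  have h5 : (∏ w ∈ V.image e, (1 - MonoidAlgebra.single (σ w)⁻¹ (1 : ℤ))) ∣
      ∏ w ∈ V', (1 - MonoidAlgebra.single (σ w)⁻¹ (1 : ℤ)) := by
    refine Finset.prod_dvd_prod_of_subset _ _ _ ?_
    intro w hw
    obtain ⟨v, hv, rfl⟩ := Finset.mem_image.1 hw
    exact hmem v hv
  rw [h4] at h1
  exact h1.trans h5

end Pool.Agent.K3h66.RS
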