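import Pool.Agent.K3h66.RS.MonoG
import Pool.Agent.K3h73.RS.Lam
import Pool.Agent.K3h12.RS.Ext
import Pool.Agent.K3h24.RS.Det
import Pool.Agent.K3h44.RS.Dlog
import Pool.Agent.K3h25.RS.Trans

/-!
# From `{v}` to larger sets `T`: the brick
-/

set_option autoImplicit false

namespace Pool.Agent.K3h66.RS

open Pool.Agent.K3h30.RS

theorem t_MONO : S_MONO := by
  intro F H G _ _ _ _ _ _ _ _ _ D U hU u v T hvT hdis htor hint
  exact mono Pool.Agent.K3h73.RS.t_LAM Pool.Agent.K3h12.RSE.t_EXT Pool.Agent.K3h24.RS.Det.t_DETF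
    Pool.Agent.K3h44.RS.t_DLOG Pool.Agent.K3h44.RS.t_FROBU Pool.Agent.K3h25.RS.t_TRANS
    Pool.Agent.K3h25.RS.t_OVER D U hU u v T hvT hdis htor hint

end Pool.Agent.K3h66.RS
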