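import Pool.Agent.K3h30.RS.Dec
import Pool.Agent.K3h30.RS.Stm3

/-!
# From `{v}` to larger sets `T`: the algebra
-/

set_option autoImplicit false
set_option linter.unusedSectionVars false

open NumberField IsDedekindDomain Filter Topology

noncomputable section

namespace Pool.Agent.K3h66.RS

open Pool.Agent.K3h30.RS

variable {G A C : Type} [CommGroup G] [Finite G] [AddCommGroup A] [DistribMulAction G A]
  [AddCommGroup C] [DistribMulAction G C]

/-- the `G`-homomorphisms `A → ℚ[G]` with integral values on the image of `C` -/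
def MM (i : C →+ A) : Submodule (toQ (G := G)).range (A → MonoidAlgebra ℚ G) where
  carrier := {g | ∃ h : A →+ MonoidAlgebra ℚ G,
    (∀ (γ : G) (a : A), h (γ • a) = MonoidAlgebra.single γ 1 * h a) ∧
    (∀ c : C, h (i c) ∈ (toQ (G := G)).range) ∧ g = ⇑h}
  add_mem' := by
    rintro _ _ ⟨h, h1, h2, rfl⟩ ⟨k, k1, k2, rfl⟩
    refine ⟨h + k, fun γ a => ?_, fun c => ?_, rfl⟩
    · rw [AddMonoidHom.add_apply, AddMonoidHom.add_apply, h1, k1, mul_add]
    · rw [AddMonoidHom.add_apply]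
      exact add_mem (h2 c) (k2 c)
  zero_mem' := ⟨0, fun γ a => by simp, fun c => by simp, rfl⟩
  smul_mem' := by
    rintro z _ ⟨h, h1, h2, rfl⟩
    refine ⟨(AddMonoidHom.mulLeft (z : MonoidAlgebra ℚ G)).comp h, fun γ a => ?_, fun c => ?_, ?_⟩
    · change (z : MonoidAlgebra ℚ G) * h (γ • a) =
        MonoidAlgebra.single γ 1 * ((z : MonoidAlgebra ℚ G) * h a)
      rw [h1]
      ring
    · exact mul_mem z.2 (h2 c)
    · funext a
      rfl

theorem toQ_inj : Function.Injective (toQ (G := G)) := by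
  intro x y h
  ext γ
  have h1 := congrArg (fun z => MonoidAlgebra.coeff z γ) h
  simp only [coeff_toQ] at h1
  exact_mod_cast h1

theorem toQ_single (γ : G) : toQ (MonoidAlgebra.single γ (1 : ℤ)) = MonoidAlgebra.single γ 1 := by
  simp [toQ]

theorem key (hL : S_LAM) (hE : S_EXT) (hDF : S_DETF) [AddGroup.FG C]
    (htor : ∀ c : C, IsOfFinAddOrder c → c = 0) (i : C →+ A)
    (hi : ∀ (γ : G) (c : C), i (γ • c) = γ • i c) (κ : A →+ C) (m₀ : ℕ) (hm₀ : 0 < m₀)
    (hκ : ∀ (γ : G) (a : A), κ (γ • a) = γ • κ a) (hiκ : ∀ a, i (κ a) = m₀ • a)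
    (hκi : ∀ c, κ (i c) = m₀ • c) (I : Type) [Fintype I] [DecidableEq I] (q : I → ℕ) (σ : I → G)
    (χ : I → A →+ QZ) (m : I → ℕ) (hm0 : ∀ t, 0 < m t) (hm : ∀ t a, m t • χ t a = 0)
    (hfrob : ∀ t a, χ t (σ t • a) = q t • χ t a) (r : ℕ) (f : Fin r → A →+ MonoidAlgebra ℚ G)
    (hf : ∀ j (γ : G) (a : A), f j (γ • a) = MonoidAlgebra.single γ 1 * f j a)
    (hfi : ∀ j (c : C), (∀ t (γ : G), χ t (γ • i c) = 0) → f j (i c) ∈ (toQ (G := G)).range) :
    (fun x : Fin r → A => (∏ t, (1 - MonoidAlgebra.single (σ t)⁻¹ (q t : ℚ))) *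
      Matrix.det (Matrix.of fun a b => f a (x b))) ∈
      Submodule.span (toQ (G := G)).range
        {h : (Fin r → A) → MonoidAlgebra ℚ G | ∃ y : Fin r → A → MonoidAlgebra ℚ G,
          (∀ j, y j ∈ MM (G := G) i) ∧ h = fun x => Matrix.det (Matrix.of fun a b => y a (x b))} := by
  classical
  choose Λ hΛ1 hΛ2 using fun t : I => hL G C 1 (fun a ha => by rw [one_smul]; exact htor a ha)
    ((χ t).comp i)
  let d : ∀ t : I, LocData G C 1 (q t) (σ t) := fun t =>
    ⟨(χ t).comp i, Λ t, hΛ1 t, hΛ2 t, fun a => by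
      rw [AddMonoidHom.comp_apply, AddMonoidHom.comp_apply, hi, hfrob]⟩
  let m' : ℕ := ∏ t, m t
  have hm'0 : 0 < m' := Finset.prod_pos fun t _ => hm0 t
  have hm' : ∀ t a, m' • χ t a = 0 := by
    intro t a
    obtain ⟨k, hk⟩ := Finset.dvd_prod_of_mem m (Finset.mem_univ t)
    change (∏ t, m t) • χ t a = 0
    rw [hk, mul_comm, mul_smul, hm, smul_zero]
  let B : AddSubgroup C :=
    { carrier := {c | ∀ (t : I) (γ : G), (χ t).comp i (γ • c) = 0}
      add_mem' := by
        intro a b ha hb t γ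
        rw [smul_add, map_add, ha t γ, hb t γ, add_zero]
      zero_mem' := by
        intro t γ
        rw [smul_zero, map_zero]
      neg_mem' := by
        intro a ha t γ
        rw [smul_neg, map_neg, ha t γ, neg_zero] }
  have hBmem : ∀ c : C, c ∈ B ↔ ∀ (t : I) (γ : G), (χ t).comp i (γ • c) = 0 := fun c => Iff.rfl
  have hBf : ∀ j (b : B), f j (i b) ∈ (toQ (G := G)).range := by
    intro j b
    refine hfi j _ fun t γ => ?_
    have := (hBmem _).1 b.2 t γ
    rwa [AddMonoidHom.comp_apply, hi] at this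
  choose g hg using hBf
  let ψ : Fin r → B →+ MonoidAlgebra ℤ G := fun j => AddMonoidHom.mk' (g j) (by
    intro a b
    apply toQ_inj
    rw [map_add, hg, hg, hg, AddSubgroup.coe_add, map_add, map_add])
  have hψ : ∀ j (b : B), toQ (ψ j b) = f j (i b) := hg
  have hψe : ∀ j (γ : G) (x y : B), (y : C) = γ • (x : C) →
      ψ j y = MonoidAlgebra.single γ 1 * ψ j x := by
    intro j γ x y hxy
    apply toQ_inj
    rw [map_mul, toQ_single, hψ, hψ, hxy, hi, hf]
  choose y a hy hya using fun j => hE G C I 1 m' hm'0 (fun t => (χ t).comp i)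
    (fun t c => hm' t (i c)) Λ hΛ1 hΛ2 B hBmem (ψ j) (hψe j)
  -- the formula on `C`
  have hC : ∀ j (c : C), f j (i c) = toQ (y j c) + ∑ t, toQ (a j t) * Λ t c := by
    intro j c
    have hb : m' • c ∈ B := by
      rw [hBmem]
      intro t γ
      rw [smul_comm, map_nsmul, AddMonoidHom.comp_apply]
      exact hm' t _
    have h1 := hya j ⟨m' • c, hb⟩
    rw [Nat.cast_one, one_mul, hψ] at h1
    apply natCast_cancel hm'0
    have h2 : (m' : MonoidAlgebra ℚ G) * f j (i c) = f j (i (m' • c)) := by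
      rw [map_nsmul, map_nsmul, nsmul_eq_mul]
    have h3 : (m' : MonoidAlgebra ℚ G) * toQ (y j c) = toQ (y j (m' • c)) := by
      rw [map_nsmul, nsmul_eq_mul, map_mul, map_natCast]
    have h4 : ∀ t, (m' : MonoidAlgebra ℚ G) * (toQ (a j t) * Λ t c) =
        toQ (a j t) * Λ t (m' • c) := by
      intro t
      rw [map_nsmul, nsmul_eq_mul]
      ring
    rw [h2, h1, mul_add, h3, Finset.mul_sum]
    congr 1
    exact Finset.sum_congr rfl fun t _ => (h4 t).symm
  -- the extension to `A`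
  let e : MonoidAlgebra ℚ G →+ MonoidAlgebra ℚ G :=
    DistribMulAction.toAddMonoidHom (MonoidAlgebra ℚ G) ((m₀ : ℚ)⁻¹)
  have he : ∀ z, e z = ((m₀ : ℚ)⁻¹) • z := fun z => rfl
  have hem : ∀ z, e (m₀ • z) = z := by
    intro z
    rw [he, ← Nat.cast_smul_eq_nsmul ℚ m₀ z, smul_smul, inv_mul_cancel₀, one_smul]
    exact_mod_cast hm₀.ne'
  have hemul : ∀ z z', e (z * z') = z * e z' := by
    intro z z'
    rw [he, he, mul_smul_comm]
  let Y : Fin r → A →+ MonoidAlgebra ℚ G := fun j =>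
    e.comp (((toQ (G := G)).toAddMonoidHom.comp (y j)).comp κ)
  have hY : ∀ j x, Y j x = e (toQ (y j (κ x))) := fun j x => rfl
  let L : I → A →+ MonoidAlgebra ℚ G := fun t => e.comp ((Λ t).comp κ)
  have hLL : ∀ t x, L t x = e (Λ t (κ x)) := fun t x => rfl
  have hA : ∀ j x, f j x = Y j x + ∑ t, toQ (a j t) * L t x := by
    intro j x
    have h1 := hC j (κ x)
    rw [hiκ, map_nsmul] at h1
    have h2 := congrArg e h1
    rw [hem, map_add, map_sum] at h2
    rw [h2, hY]
    congr 1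
    refine Finset.sum_congr rfl fun t _ => ?_
    rw [hemul, hLL]
  have hmain := hDF (MonoidAlgebra ℚ G) I A (toQ (G := G)).range (MM (G := G) i) Finset.univ
    (fun t => 1 - MonoidAlgebra.single (σ t)⁻¹ (q t : ℚ)) r (fun j => ⇑(Y j))
    (fun j t => toQ (a j t)) (fun t => ⇑(L t)) ?_ ?_ ?_ ?_
  · have h5 : (fun x : Fin r → A => (∏ t, (1 - MonoidAlgebra.single (σ t)⁻¹ (q t : ℚ))) *
        Matrix.det (Matrix.of fun a b => f a (x b))) = fun x : Fin r → A =>
        (∏ t, (1 - MonoidAlgebra.single (σ t)⁻¹ (q t : ℚ))) *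
        Matrix.det (Matrix.of fun j b => Y j (x b) + ∑ t, toQ (a j t) * L t (x b)) := by
      funext x
      congr 2
      ext j b
      rw [Matrix.of_apply, Matrix.of_apply, hA]
    rw [h5]
    exact hmain
  · intro j
    refine ⟨Y j, fun γ x => ?_, fun c => ?_, rfl⟩
    · rw [hY, hY, hκ, hy, map_mul, toQ_single, hemul]
    · rw [hY, hκi, map_nsmul, map_nsmul, hem]
      exact ⟨_, rfl⟩
  · intro j t
    exact ⟨_, rfl⟩
  · intro t _
    refine ⟨1 - MonoidAlgebra.single (σ t)⁻¹ (q t : ℤ), ?_⟩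
    rw [map_sub, map_one]
    congr 1
    simp [toQ]
  · intro t _
    refine ⟨(AddMonoidHom.mulLeft (1 - MonoidAlgebra.single (σ t)⁻¹ (q t : ℚ))).comp (L t),
      fun γ x => ?_, fun c => ?_, rfl⟩
    · change (1 - MonoidAlgebra.single (σ t)⁻¹ (q t : ℚ)) * L t (γ • x) =
        MonoidAlgebra.single γ 1 * ((1 - MonoidAlgebra.single (σ t)⁻¹ (q t : ℚ)) * L t x)
      rw [hLL, hLL, hκ, hΛ1, hemul]
      ring
    · change (1 - MonoidAlgebra.single (σ t)⁻¹ (q t : ℚ)) * L t (i c) ∈ _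
      rw [hLL, hκi, map_nsmul, hem]
      exact (d t).integral c

end Pool.Agent.K3h66.RS
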