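import Pool.Agent.K3h66.RS.MonoAlg

/-!
# From `{v}` to larger sets `T`
-/

set_option autoImplicit false
set_option linter.unusedSectionVars false

open NumberField IsDedekindDomain Filter Topology

noncomputable section

namespace Pool.Agent.K3h66.RS

open Pool.Agent.K3h30.RS

variable {F H G : Type} [Field F] [NumberField F] [Field H] [NumberField H] [Algebra F H]
  [CommGroup G] [Finite G] [MulSemiringAction G H]

/-- the `S`-units congruent to one modulo `v` -/
abbrev UV (D : RubinData F H G) (v : HeightOneSpectrum (𝓞 F)) : Subgroup Hˣ :=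
  unitGroup (H := H) (D.S : Set (HeightOneSpectrum (𝓞 F)))
    (({v} : Finset (HeightOneSpectrum (𝓞 F))) : Set (HeightOneSpectrum (𝓞 F)))

theorem mem_UV (D : RubinData F H G) (v : HeightOneSpectrum (𝓞 F)) {x : Hˣ} (hx : x ∈ US D)
    (h : ∀ w : HeightOneSpectrum (𝓞 H), Above {v} w → w.valuation H ((x : H) - 1) < 1) :
    x ∈ UV D v := by
  refine ⟨hx.1, fun w hw => h w ?_⟩
  obtain ⟨v', h1, h2⟩ := above_mem hw
  have : v' = v := by simpa using h1
  rwa [this] at h2

theorem UV_le (D : RubinData F H G) (v : HeightOneSpectrum (𝓞 F)) : UV D v ≤ US D :=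
  fun _ hx => mem_US_of_mem D {v} hx

theorem mono (hL : S_LAM) (hE : S_EXT) (hDF : S_DETF) (hD : S_DLOG) (hF : S_FROBU)
    (hT : S_TRANS) (hO : S_OVER) [hG : IsGaloisGroup G F H] (D : RubinData F H G)
    (U : Subgroup Hˣ) (hU : U ≤ unitGroup (H := H) (D.S : Set (HeightOneSpectrum (𝓞 F))) ∅)
    (u : Wedge G D.r U) (v : HeightOneSpectrum (𝓞 F)) (T : Finset (HeightOneSpectrum (𝓞 F)))
    (hvT : v ∈ T) (hdis : Disjoint D.S T)
    (htor : ∀ x : Hˣ, x ∈ D.U {v} → IsOfFinOrder x → x = 1) (hint : IntAt D hU u {v}) :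
    IntAt D hU u T := by
  classical
  intro f hfe hfi
  letI i1 := actionA (H := H) (G := G) hT (D.S : Set (HeightOneSpectrum (𝓞 F))) ∅
  letI i2 := actionA (H := H) (G := G) hT (D.S : Set (HeightOneSpectrum (𝓞 F)))
    (({v} : Finset (HeightOneSpectrum (𝓞 F))) : Set (HeightOneSpectrum (𝓞 F)))
  have hfgA : AddGroup.FG (Additive (US D)) := fgA hO D.S
  -- the inclusion
  let i : Additive (UV D v) →+ Additive (US D) :=
    MonoidHom.toAdditive (Subgroup.inclusion (UV_le D v))
  have hiv : ∀ c : Additive (UV D v), ((Additive.toMul (i c) : US D) : Hˣ) =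
      ((Additive.toMul c : UV D v) : Hˣ) := fun c => rfl
  have hinj : Function.Injective i := by
    intro a b h
    apply Additive.toMul.injective
    apply Subtype.ext
    rw [← hiv a, ← hiv b, h]
  have hfgC : AddGroup.FG (Additive (UV D v)) := by
    have h0 : Module.Finite ℤ (Additive (US D)) := Module.Finite.iff_addGroup_fg.2 hfgA
    have h1 : Module.Finite ℤ (Additive (UV D v)) :=
      Module.Finite.of_injective i.toIntLinearMap hinj
    exact Module.Finite.iff_addGroup_fg.1 h1
  have hi : ∀ (γ : G) (c : Additive (UV D v)), i (γ • c) = γ • i c := fun γ c => rfl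
  have htor' : ∀ c : Additive (UV D v), IsOfFinAddOrder c → c = 0 := by
    intro c hc
    obtain ⟨n, hn, h1⟩ := isOfFinAddOrder_iff_nsmul_eq_zero.1 hc
    have h2 : ((Additive.toMul c : UV D v) : Hˣ) ^ n = 1 := by
      have := congrArg (fun z : Additive (UV D v) => ((Additive.toMul z : UV D v) : Hˣ)) h1
      exact this
    have h3 := htor _ (Additive.toMul c : UV D v).2 (isOfFinOrder_iff_pow_eq_one.2 ⟨n, hn, h2⟩)
    apply Additive.toMul.injective
    exact Subtype.ext h3
  have hnot : ∀ t ∈ T, t ∉ D.S := fun t ht h => (Finset.disjoint_left.1 hdis h) ht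
  -- the exponent at `v`
  obtain ⟨χv, m₀, hm₀, hmv, -, hkv, -⟩ := exists_char (G := G) hD hF hT hO D.S v (hnot v hvT)
    (D.σ v) (D.frob v (hnot v hvT))
  have hpow : ∀ x : US D, ((x ^ m₀ : US D) : Hˣ) ∈ UV D v := by
    intro x
    refine mem_UV D v (x ^ m₀).2 ((hkv (x ^ m₀)).1 fun γ => ?_)
    rw [ofMul_pow, smul_comm, map_nsmul]
    exact hmv _
  let κ : Additive (US D) →+ Additive (UV D v) := AddMonoidHom.mk'
    (fun a => Additive.ofMul ⟨(((Additive.toMul a : US D) ^ m₀ : US D) : Hˣ),
      hpow (Additive.toMul a)⟩) (by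
    intro a b
    apply Additive.toMul.injective
    apply Subtype.ext
    change ((((Additive.toMul (a + b) : US D) ^ m₀ : US D) : Hˣ)) =
      (((Additive.toMul a : US D) ^ m₀ : US D) : Hˣ) * (((Additive.toMul b : US D) ^ m₀ : US D) : Hˣ)
    rw [toMul_add, mul_pow]
    rfl)
  have hκv : ∀ a : Additive (US D), ((Additive.toMul (κ a) : UV D v) : Hˣ) =
      ((Additive.toMul a : US D) : Hˣ) ^ m₀ := fun a => rfl
  have hκ : ∀ (γ : G) (a : Additive (US D)), κ (γ • a) = γ • κ a := by
    intro γ a
    apply Additive.toMul.injective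
    apply Subtype.ext
    change (act γ ((Additive.toMul a : US D) : Hˣ)) ^ m₀ =
      act γ (((Additive.toMul a : US D) : Hˣ) ^ m₀)
    rw [act_pow]
  have hiκ : ∀ a, i (κ a) = m₀ • a := by
    intro a
    apply Additive.toMul.injective
    apply Subtype.ext
    rfl
  have hκi : ∀ c, κ (i c) = m₀ • c := by
    intro c
    apply Additive.toMul.injective
    apply Subtype.ext
    rfl
  -- the characters at the other primes of `T`
  have hnot' : ∀ t : {t // t ∈ T.erase v}, t.1 ∉ D.S := fun t =>
    hnot t.1 (Finset.mem_of_mem_erase t.2)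
  choose χ m hm0 hm hfrob hker hpow' using fun t : {t // t ∈ T.erase v} =>
    exists_char (G := G) hD hF hT hO D.S t.1 (hnot' t) (D.σ t.1) (D.frob t.1 (hnot' t))
  have hf1 : ∀ j (γ : G) (a : Additive (US D)), f j (γ • a) = MonoidAlgebra.single γ 1 * f j a :=
    fun j γ a => hfe j γ (Additive.toMul a) (Additive.toMul (γ • a)) rfl
  have hf2 : ∀ j (c : Additive (UV D v)), (∀ t (γ : G), χ t (γ • i c) = 0) →
      f j (i c) ∈ (toQ (G := G)).range := by
    intro j c hc
    refine hfi j (Additive.toMul (i c)) ?_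
    refine ⟨(Additive.toMul c : UV D v).2.1, fun w hw => ?_⟩
    obtain ⟨t, ht, htw⟩ := above_mem hw
    by_cases htv : t = v
    · subst htv
      exact (Additive.toMul c : UV D t).2.2 w ((above_iff htw).2 (by simp))
    · exact (hker ⟨t, Finset.mem_erase.2 ⟨htv, Finset.mem_coe.1 ht⟩⟩ (Additive.toMul (i c))).1
        (fun γ => hc _ γ) w htw
  have hk := key hL hE hDF htor' i hi κ m₀ hm₀ hκ hiκ hκi {t // t ∈ T.erase v}
    (fun t => Ideal.absNorm t.1.asIdeal) (fun t => D.σ t.1) χ m hm0 hm hfrob D.r f hf1 hf2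
  -- the evaluation
  let pt : Fin u.n → Fin D.r → Additive (US D) := fun k j =>
    Additive.ofMul ⟨(u.x k j : Hˣ), hU (u.x k j).2⟩
  let N : Submodule (toQ (G := G)).range ((Fin D.r → Additive (US D)) → MonoidAlgebra ℚ G) :=
    { carrier := {h | D.delta {v} * ∑ k, u.c k * h (pt k) ∈ (toQ (G := G)).range}
      add_mem' := by
        intro g h hg hh
        change D.delta {v} * ∑ k, u.c k * (g (pt k) + h (pt k)) ∈ (toQ (G := G)).range
        have : D.delta {v} * ∑ k, u.c k * (g (pt k) + h (pt k)) =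
            D.delta {v} * ∑ k, u.c k * g (pt k) + D.delta {v} * ∑ k, u.c k * h (pt k) := by
          rw [← mul_add, ← Finset.sum_add_distrib]
          simp only [mul_add]
        rw [this]
        exact add_mem hg hh
      zero_mem' := by
        change D.delta {v} * ∑ k, u.c k * (0 : MonoidAlgebra ℚ G) ∈ (toQ (G := G)).range
        simp
      smul_mem' := by
        intro z h hh
        change D.delta {v} * ∑ k, u.c k * ((z : MonoidAlgebra ℚ G) * h (pt k)) ∈
          (toQ (G := G)).range
        have : D.delta {v} * ∑ k, u.c k * ((z : MonoidAlgebra ℚ G) * h (pt k)) =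
            z * (D.delta {v} * ∑ k, u.c k * h (pt k)) := by
          have e1 : ∑ k, u.c k * ((z : MonoidAlgebra ℚ G) * h (pt k)) =
              (z : MonoidAlgebra ℚ G) * ∑ k, u.c k * h (pt k) := by
            rw [Finset.mul_sum]
            exact Finset.sum_congr rfl fun k _ => by ring
          rw [e1]
          ring
        rw [this]
        exact mul_mem z.2 hh }
  have hle : Submodule.span (toQ (G := G)).range
      {h : (Fin D.r → Additive (US D)) → MonoidAlgebra ℚ G |
        ∃ y : Fin D.r → Additive (US D) → MonoidAlgebra ℚ G,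
          (∀ j, y j ∈ MM (G := G) i) ∧ h = fun x => Matrix.det (Matrix.of fun a b => y a (x b))} ≤
      N := by
    rw [Submodule.span_le]
    rintro _ ⟨y, hy, rfl⟩
    choose g hg1 hg2 hg3 using hy
    have h1 := hint g (fun j γ x y hxy => ?_) (fun j x hx => ?_)
    · have h2 : wval D hU g u = ∑ k, u.c k *
          (fun x : Fin D.r → Additive (US D) => Matrix.det (Matrix.of fun a b => y a (x b))) (pt k) := by
        unfold wval
        refine Finset.sum_congr rfl fun k _ => ?_
        congr 2
        refine Matrix.ext fun a b => ?_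
        change g a (pt k b) = y a (pt k b)
        rw [hg3 a]
      rw [h2] at h1
      exact h1
    · have h3 : Additive.ofMul y = γ • Additive.ofMul x := by
        apply Additive.toMul.injective
        exact Subtype.ext hxy
      rw [h3]
      exact hg1 j γ _
    · exact hg2 j (Additive.ofMul ⟨(x : Hˣ), hx⟩)
  have hN := hle hk
  have hN' : D.delta {v} * ∑ k, u.c k * ((∏ t : {t // t ∈ T.erase v},
      (1 - MonoidAlgebra.single (D.σ t.1)⁻¹ (Ideal.absNorm t.1.asIdeal : ℚ))) *
      Matrix.det (Matrix.of fun a b => f a (pt k b))) ∈ (toQ (G := G)).range := hN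
  have h5 : D.delta T * wval D hU f u = D.delta {v} * ∑ k, u.c k *
      ((∏ t : {t // t ∈ T.erase v},
      (1 - MonoidAlgebra.single (D.σ t.1)⁻¹ (Ideal.absNorm t.1.asIdeal : ℚ))) *
      Matrix.det (Matrix.of fun a b => f a (pt k b))) := by
    have h6 : D.delta T = D.delta {v} * ∏ t : {t // t ∈ T.erase v},
        (1 - MonoidAlgebra.single (D.σ t.1)⁻¹ (Ideal.absNorm t.1.asIdeal : ℚ)) := by
      unfold RubinData.delta
      rw [Finset.prod_singleton, Finset.prod_coe_sort (T.erase v) (fun t =>
        (1 - MonoidAlgebra.single (D.σ t)⁻¹ (Ideal.absNorm t.asIdeal : ℚ))),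
        Finset.mul_prod_erase T (fun t =>
        (1 - MonoidAlgebra.single (D.σ t)⁻¹ (Ideal.absNorm t.asIdeal : ℚ))) hvT]
    rw [h6, mul_assoc]
    congr 1
    unfold wval
    rw [Finset.mul_sum]
    refine Finset.sum_congr rfl fun k _ => ?_
    rw [mul_left_comm]
  rw [h5]
  exact hN'

end Pool.Agent.K3h66.RS
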